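import Pool.Agent.Lib.MP_39c2b7_co.Interfaces

/-!
# Strong arboricity, module DBOUND: the edge bound for graphs with an abstract dual
-/

namespace StrongArb.H99

open Classical Module

variable {V : Type}

/-- the set of edges where a vector of the edge space is not zero -/
def supp (G : SimpleGraph V) (x : G.edgeSet → ZMod 2) : Set (Sym2 V) :=
  {e | ∃ h : e ∈ G.edgeSet, x ⟨e, h⟩ ≠ 0}

theorem mem_supp (G : SimpleGraph V) (x : G.edgeSet → ZMod 2) (e : G.edgeSet) :
    e.1 ∈ supp G x ↔ x e ≠ 0 := by
  constructor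
  · rintro ⟨h, hx⟩
    exact hx
  · intro hx
    exact ⟨e.2, hx⟩

theorem zmod2_cases (a : ZMod 2) : a = 0 ∨ a = 1 := by
  revert a
  decide

/-- the boundary map -/
noncomputable def bd [Fintype V] (G : SimpleGraph V) :
    (G.edgeSet → ZMod 2) →ₗ[ZMod 2] (V → ZMod 2) where
  toFun x v := ∑ e : G.edgeSet, if v ∈ e.1 then x e else 0
  map_add' x y := by
    funext v
    simp only [Pi.add_apply]
    rw [← Finset.sum_add_distrib]
    refine Finset.sum_congr rfl fun e _ => ?_
    split_ifs <;> simp
  map_smul' c x := by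
    funext v
    simp only [Pi.smul_apply, smul_eq_mul, RingHom.id_apply]
    rw [Finset.mul_sum]
    refine Finset.sum_congr rfl fun e _ => ?_
    split_ifs <;> simp

theorem bd_apply [Fintype V] (G : SimpleGraph V) (x : G.edgeSet → ZMod 2) (v : V) :
    bd G x v = ∑ e : G.edgeSet, if v ∈ e.1 then x e else 0 := rfl

theorem bd_eq_card [Fintype V] (G : SimpleGraph V) (x : G.edgeSet → ZMod 2) (v : V) :
    bd G x v = ((({e | e ∈ supp G x ∧ v ∈ e} : Set (Sym2 V)).ncard : ℕ) : ZMod 2) := by
  have h1 : ({e | e ∈ supp G x ∧ v ∈ e} : Set (Sym2 V)) =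
      Subtype.val '' ((Finset.univ.filter (fun e : G.edgeSet => x e ≠ 0 ∧ v ∈ e.1) :
        Finset G.edgeSet) : Set G.edgeSet) := by
    ext e
    simp only [Set.mem_setOf_eq, Finset.coe_filter, Finset.mem_univ, true_and, Set.mem_image]
    constructor
    · rintro ⟨⟨h, hx⟩, hv⟩
      exact ⟨⟨e, h⟩, ⟨hx, hv⟩, rfl⟩
    · rintro ⟨e', ⟨hx, hv⟩, rfl⟩
      exact ⟨(mem_supp G x e').2 hx, hv⟩
  rw [h1, Set.ncard_image_of_injective _ Subtype.val_injective, Set.ncard_coe_finset, bd_apply,
    Finset.card_filter]
  push_cast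
  refine Finset.sum_congr rfl fun e _ => ?_
  by_cases hv : v ∈ e.1
  · rcases zmod2_cases (x e) with h | h <;> simp [hv, h]
  · simp [hv]

theorem bd_zero_iff [Fintype V] (G : SimpleGraph V) (x : G.edgeSet → ZMod 2) :
    bd G x = 0 ↔ EvenSet G (supp G x) := by
  constructor
  · intro h
    refine ⟨?_, fun v => ?_⟩
    · rintro e ⟨he, -⟩
      exact he
    · have := congrFun h v
      rw [bd_eq_card] at this
      exact (ZMod.natCast_eq_zero_iff_even).1 this
  · intro h
    funext v
    rw [bd_eq_card]
    exact (ZMod.natCast_eq_zero_iff_even).2 (h.2 v)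

theorem sum_bd [Fintype V] (G : SimpleGraph V) (x : G.edgeSet → ZMod 2) :
    ∑ v, bd G x v = 0 := by
  simp only [bd_apply]
  rw [Finset.sum_comm]
  refine Finset.sum_eq_zero fun e _ => ?_
  obtain ⟨e, he⟩ := e
  induction e with
  | _ a b =>
    have hab : a ≠ b := G.ne_of_adj he
    rw [← Finset.sum_filter]
    have h2 : (Finset.univ.filter (fun v : V => v ∈ s(a, b))) = {a, b} := by
      ext v
      simp
    rw [h2, Finset.sum_pair hab]
    exact CharTwo.add_self_eq_zero _

theorem finrank_ker [Fintype V] [Nonempty V] (G : SimpleGraph V) :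
    Fintype.card G.edgeSet + 1 ≤ finrank (ZMod 2) (LinearMap.ker (bd G)) + Fintype.card V := by
  let sm : (V → ZMod 2) →ₗ[ZMod 2] ZMod 2 :=
    { toFun := fun y => ∑ v, y v
      map_add' := fun y z => by simp [Finset.sum_add_distrib]
      map_smul' := fun c y => by simp [Finset.mul_sum] }
  have h1 := LinearMap.finrank_range_add_finrank_ker (bd G)
  have h2 := LinearMap.finrank_range_add_finrank_ker sm
  have h3 : LinearMap.range (bd G) ≤ LinearMap.ker sm := by
    rintro _ ⟨x, rfl⟩
    exact sum_bd G x
  have h4 := Submodule.finrank_mono h3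
  have h5 : LinearMap.range sm = ⊤ := by
    rw [LinearMap.range_eq_top]
    intro c
    obtain ⟨v0⟩ := ‹Nonempty V›
    refine ⟨fun v => if v = v0 then c else 0, ?_⟩
    simp [sm]
  rw [h5] at h2
  simp only [finrank_top, finrank_self, finrank_pi, finrank_fintype_fun_eq_card] at h1 h2
  omega

/-- the incidence vector of a dual vertex -/
noncomputable def face (G : SimpleGraph V) {W : Type} (ends : Sym2 V → W × W) (w : W) :
    G.edgeSet → ZMod 2 :=
  fun e => (if (ends e.1).1 = w then 1 else 0) + (if (ends e.1).2 = w then 1 else 0)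

theorem face_mem [Fintype V] (G : SimpleGraph V) {W : Type} (ends : Sym2 V → W × W)
    (hd : IsDual G ends) (w : W) : face G ends w ∈ LinearMap.ker (bd G) := by
  rw [LinearMap.mem_ker, bd_zero_iff, hd]
  refine ⟨{w}, fun e => ?_⟩
  constructor
  · rintro ⟨he, hx⟩
    refine ⟨he, fun hiff => hx ?_⟩
    simp only [Set.mem_singleton_iff] at hiff
    unfold face
    by_cases h1 : (ends e).1 = w
    · have h2 := hiff.1 h1
      simp only [h1, h2, if_true]
      exact CharTwo.add_self_eq_zero _
    · have h2 : ¬ (ends e).2 = w := fun h => h1 (hiff.2 h)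
      simp [h1, h2]
  · rintro ⟨he, hn⟩
    refine ⟨he, ?_⟩
    simp only [Set.mem_singleton_iff] at hn
    unfold face
    by_cases h1 : (ends e).1 = w
    · by_cases h2 : (ends e).2 = w
      · exact absurd ⟨fun _ => h2, fun _ => h1⟩ hn
      · simp [h1, h2]
    · by_cases h2 : (ends e).2 = w
      · simp [h1, h2]
      · exact absurd ⟨fun h => absurd h h1, fun h => absurd h h2⟩ hn

theorem ker_le_span [Fintype V] (G : SimpleGraph V) {W : Type} [Fintype W]
    (ends : Sym2 V → W × W) (hd : IsDual G ends) :
    LinearMap.ker (bd G) ≤ Submodule.span (ZMod 2) (Set.range (face G ends)) := by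
  intro x hx
  rw [LinearMap.mem_ker, bd_zero_iff, hd] at hx
  obtain ⟨S, hS⟩ := hx
  have hx2 : x = ∑ w ∈ Finset.univ.filter (fun w => w ∈ S), face G ends w := by
    funext e
    have he := hS e.1
    rw [mem_supp] at he
    rw [Finset.sum_apply]
    unfold face
    rw [Finset.sum_add_distrib]
    simp only [Finset.sum_ite_eq, Finset.mem_filter, Finset.mem_univ, true_and]
    rcases zmod2_cases (x e) with h0 | h1
    · have hn : ¬ (x e ≠ 0) := by simp [h0]
      rw [he] at hn
      have hiff : ((ends e.1).1 ∈ S ↔ (ends e.1).2 ∈ S) := by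
        by_contra hc
        exact hn ⟨e.2, hc⟩
      rw [h0]
      by_cases h1 : (ends e.1).1 ∈ S
      · have h2 := hiff.1 h1
        simp only [h1, h2, if_true]
        exact (CharTwo.add_self_eq_zero _).symm
      · have h2 : ¬ (ends e.1).2 ∈ S := fun h => h1 (hiff.2 h)
        simp [h1, h2]
    · have hn : x e ≠ 0 := by simp [h1]
      rw [he] at hn
      rw [h1]
      by_cases h1 : (ends e.1).1 ∈ S
      · by_cases h2 : (ends e.1).2 ∈ S
        · exact absurd ⟨fun _ => h2, fun _ => h1⟩ hn.2
        · simp [h1, h2]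
      · by_cases h2 : (ends e.1).2 ∈ S
        · simp [h1, h2]
        · exact absurd ⟨fun h => absurd h h1, fun h => absurd h h2⟩ hn.2
  rw [hx2]
  exact Submodule.sum_mem _ fun w _ => Submodule.subset_span ⟨w, rfl⟩

/-- an even set that is not empty has at least three edges -/
theorem three_le [Fintype V] (G : SimpleGraph V) (x : G.edgeSet → ZMod 2)
    (hx : x ∈ LinearMap.ker (bd G)) (h0 : x ≠ 0) :
    3 ≤ (Finset.univ.filter (fun e => x e ≠ 0)).card := by
  rw [LinearMap.mem_ker, bd_zero_iff] at hx
  -- every vertex on an edge of the support is on a second one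
  have key : ∀ (v : V) (e : G.edgeSet), x e ≠ 0 → v ∈ e.1 →
      ∃ e' : G.edgeSet, x e' ≠ 0 ∧ v ∈ e'.1 ∧ e' ≠ e := by
    intro v e he hv
    by_contra hc
    push_neg at hc
    have h1 : ({e | e ∈ supp G x ∧ v ∈ e} : Set (Sym2 V)) = {e.1} := by
      ext f
      simp only [Set.mem_setOf_eq, Set.mem_singleton_iff]
      constructor
      · rintro ⟨⟨hf, hxf⟩, hvf⟩
        exact congrArg Subtype.val (hc ⟨f, hf⟩ hxf hvf)
      · rintro rfl
        exact ⟨(mem_supp G x e).2 he, hv⟩
    have h2 := hx.2 v
    rw [h1, Set.ncard_singleton] at h2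
    exact absurd h2 (by decide)
  obtain ⟨e, he⟩ := Function.ne_iff.1 h0
  have he' : x e ≠ 0 := he
  obtain ⟨u, v, huv⟩ : ∃ u v, e.1 = s(u, v) := by
    induction h : e.1 with
    | _ u v => exact ⟨u, v, rfl⟩
  have hve : v ∈ e.1 := by rw [huv]; simp
  obtain ⟨f, hf, hvf, hfe⟩ := key v e he' hve
  obtain ⟨w, hw⟩ : ∃ w, f.1 = s(v, w) := by
    obtain ⟨w, hw⟩ := Sym2.mem_iff_exists.1 hvf
    exact ⟨w, hw⟩
  have hwf : w ∈ f.1 := by rw [hw]; simp
  obtain ⟨g, hg, hwg, hgf⟩ := key w f hf hwf
  have hvw : v ≠ w := by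
    have := f.2
    rw [hw] at this
    exact G.ne_of_adj this
  have hwu : w ≠ u := by
    intro h
    apply hfe
    apply Subtype.ext
    rw [hw, huv, h, Sym2.eq_swap]
  have hwe : w ∉ e.1 := by
    rw [huv]
    simp only [Sym2.mem_iff, not_or]
    exact ⟨hwu, hvw.symm⟩
  have hge : g ≠ e := by
    intro h
    apply hwe
    rw [← h]
    exact hwg
  have hsub : ({e, f, g} : Finset G.edgeSet) ⊆ Finset.univ.filter (fun e => x e ≠ 0) := by
    intro a ha
    simp only [Finset.mem_insert, Finset.mem_singleton] at ha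
    simp only [Finset.mem_filter, Finset.mem_univ, true_and]
    rcases ha with rfl | rfl | rfl
    · exact he'
    · exact hf
    · exact hg
  have hcard : ({e, f, g} : Finset G.edgeSet).card = 3 := by
    rw [Finset.card_eq_three]
    exact ⟨e, f, g, hfe.symm, hge.symm, hgf.symm, rfl⟩
  calc 3 = ({e, f, g} : Finset G.edgeSet).card := hcard.symm
    _ ≤ _ := Finset.card_le_card hsub

theorem bound [Fintype V] (G : SimpleGraph V) {W : Type} [Fintype W]
    (ends : Sym2 V → W × W) (hd : IsDual G ends) (hV : 3 ≤ Fintype.card V) :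
    Fintype.card G.edgeSet + 6 ≤ 3 * Fintype.card V := by
  have hne : Nonempty V := Fintype.card_pos_iff.1 (by omega)
  have hrk := finrank_ker G
  obtain ⟨κ, a, ha, hsp, hli⟩ := exists_linearIndependent' (ZMod 2) (face G ends)
  have : Finite κ := Finite.of_injective a ha
  have : Fintype κ := Fintype.ofFinite κ
  have hspan : Submodule.span (ZMod 2) (Set.range (face G ends ∘ a)) = LinearMap.ker (bd G) := by
    rw [hsp]
    apply le_antisymm
    · rw [Submodule.span_le]
      rintro _ ⟨w, rfl⟩
      exact face_mem G ends hd w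
    · exact ker_le_span G ends hd
  have hr : finrank (ZMod 2) (LinearMap.ker (bd G)) = Fintype.card κ := by
    rw [← hspan]
    exact finrank_span_eq_card hli
  rw [hr] at hrk
  rcases Nat.eq_zero_or_pos (Fintype.card κ) with h0 | hpos
  · omega
  -- the sum of the basis
  let T : G.edgeSet → ZMod 2 := ∑ k, face G ends (a k)
  have hT : T ∈ LinearMap.ker (bd G) :=
    Submodule.sum_mem _ fun k _ => face_mem G ends hd (a k)
  have hT0 : T ≠ 0 := by
    intro h
    have h2 := Fintype.linearIndependent_iff.1 hli (fun _ => 1) (by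
      simpa [T] using h)
    obtain ⟨k⟩ := Fintype.card_pos_iff.1 hpos
    exact one_ne_zero (h2 k)
  have hface0 : ∀ k, face G ends (a k) ≠ 0 := fun k => hli.ne_zero k
  -- counting
  have hcount : ∀ e : G.edgeSet,
      (Finset.univ.filter (fun k => face G ends (a k) e ≠ 0)).card +
        (if T e ≠ 0 then 1 else 0) ≤ 2 := by
    intro e
    set K := Finset.univ.filter (fun k => face G ends (a k) e ≠ 0) with hK
    have hK2 : K.card ≤ 2 := by
      have h1 : K.image a ⊆ {(ends e.1).1, (ends e.1).2} := by
        intro w hw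
        obtain ⟨k, hk, rfl⟩ := Finset.mem_image.1 hw
        rw [hK, Finset.mem_filter] at hk
        by_contra hc
        simp only [Finset.mem_insert, Finset.mem_singleton, not_or] at hc
        apply hk.2
        unfold face
        rw [if_neg (fun h => hc.1 h.symm), if_neg (fun h => hc.2 h.symm), add_zero]
      have h2 := Finset.card_le_card h1
      rw [Finset.card_image_of_injective _ ha] at h2
      exact h2.trans (Finset.card_le_two)
    have hTe : T e = (K.card : ZMod 2) := by
      simp only [T, Finset.sum_apply]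
      rw [hK, Finset.card_filter]
      push_cast
      refine Finset.sum_congr rfl fun k _ => ?_
      rcases zmod2_cases (face G ends (a k) e) with h | h <;> simp [h]
    have hcase : K.card = 0 ∨ K.card = 1 ∨ K.card = 2 := by omega
    rcases hcase with h | h | h
    · rw [h]
      split_ifs <;> omega
    · rw [h]
      split_ifs <;> omega
    · have : T e = 0 := by
        rw [hTe, h]
        decide
      rw [h, if_neg (by simpa using this)]
  have hsum1 : ∀ k, 3 ≤ (Finset.univ.filter (fun e => face G ends (a k) e ≠ 0)).card :=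
    fun k => three_le G _ (face_mem G ends hd (a k)) (hface0 k)
  have hsum2 : 3 ≤ (Finset.univ.filter (fun e => T e ≠ 0)).card := three_le G _ hT hT0
  have htot : 3 * (Fintype.card κ + 1) ≤ 2 * Fintype.card G.edgeSet := by
    have h1 : ∑ e : G.edgeSet, ((Finset.univ.filter (fun k => face G ends (a k) e ≠ 0)).card +
        (if T e ≠ 0 then 1 else 0)) ≤ ∑ e : G.edgeSet, 2 :=
      Finset.sum_le_sum fun e _ => hcount e
    rw [Finset.sum_add_distrib] at h1
    have h2 : ∑ e : G.edgeSet, (Finset.univ.filter (fun k => face G ends (a k) e ≠ 0)).card =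
        ∑ k, (Finset.univ.filter (fun e => face G ends (a k) e ≠ 0)).card := by
      simp only [Finset.card_filter]
      exact Finset.sum_comm
    have h3 : ∑ e : G.edgeSet, (if T e ≠ 0 then 1 else 0) =
        (Finset.univ.filter (fun e => T e ≠ 0)).card := by
      rw [Finset.card_filter]
    have h4 : ∑ k : κ, 3 ≤ ∑ k, (Finset.univ.filter (fun e => face G ends (a k) e ≠ 0)).card :=
      Finset.sum_le_sum fun k _ => hsum1 k
    rw [h2, h3] at h1
    simp only [Finset.sum_const, Finset.card_univ, smul_eq_mul] at h1 h4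
    omega
  omega

/-- Module DBOUND (the hypothesis TJOIN is not needed). -/
theorem dbound : DualBoundStatement := by
  intro V _ G hdual _ hV
  have : Fintype V := Fintype.ofFinite V
  obtain ⟨W, hW, ends, hd⟩ := hdual
  have : Fintype W := Fintype.ofFinite W
  rw [Nat.card_eq_fintype_card] at hV ⊢
  have h := bound G ends hd hV
  have h2 : G.edgeSet.ncard = Fintype.card G.edgeSet := by
    rw [← Nat.card_coe_set_eq, Nat.card_eq_fintype_card]
  rw [h2]
  exact h

end StrongArb.H99
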